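import Pool.Agent.H51.Cantorval

set_option autoImplicit false

open Set Filter Topology

namespace Pool.Agent.Results.MP_171342_an.CantorvalLeftEnds

/-- The achievement set of `x`: all sums of `ε n * x n` with `ε n ∈ {0, 1}`. -/
def achievementSet (x : ℕ → ℝ) : Set ℝ :=
  {s | ∃ ε : ℕ → ℝ, (∀ n, ε n = 0 ∨ ε n = 1) ∧ HasSum (fun n => ε n * x n) s}

/-- `[a, c]` with `a < c` is a connected component of `E`. -/
def IsEInterval (E : Set ℝ) (a c : ℝ) : Prop :=
  a < c ∧ a ∈ E ∧ connectedComponentIn E a = Icc a c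

/-- The one-point connected components of `E`. -/
def onePoint (E : Set ℝ) : Set ℝ := {y | y ∈ E ∧ connectedComponentIn E y = {y}}

/-- `E` is a Cantorval: nonempty and compact, the closure of its interior, and both endpoints of
every nondegenerate connected component are accumulation points of one-point components. -/
def IsCantorval (E : Set ℝ) : Prop :=
  E.Nonempty ∧ IsCompact E ∧ E = closure (interior E) ∧
    ∀ a c : ℝ, IsEInterval E a c → AccPt a (𝓟 (onePoint E)) ∧ AccPt c (𝓟 (onePoint E))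

/-- The sequence `1/3, 3/4, 2/4, 3/16, 2/16, 3/64, 2/64, …`. -/
noncomputable def seq : ℕ → ℝ
  | 0 => 1 / 3
  | n + 1 => (if n % 2 = 0 then 3 else 2) / 4 ^ (n / 2 + 1)

lemma seq_eq : seq = Pool.Agent.H51.Cantorval.x := by
  funext n
  cases n with
  | zero => rfl
  | succ n =>
    show (if n % 2 = 0 then (3 : ℝ) else 2) / 4 ^ (n / 2 + 1) =
      (if n % 2 = 0 then 3 else 2) * (1/4)^(n/2+1)
    rw [one_div, inv_pow, div_eq_mul_inv]

lemma ach_eq {x : ℕ → ℝ} (hx : Summable x) :
    achievementSet x = {s | ∃ A : Set ℕ, s = ∑' n, A.indicator x n} := by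
  classical
  ext s
  constructor
  · rintro ⟨ε, hε, hs⟩
    refine ⟨{n | ε n = 1}, ?_⟩
    rw [← hs.tsum_eq]
    refine tsum_congr fun n => ?_
    by_cases h : ε n = 1
    · rw [Set.indicator_of_mem (show n ∈ {n | ε n = 1} from h), h, one_mul]
    · rw [Set.indicator_of_notMem (show n ∉ {n | ε n = 1} from h),
        (hε n).resolve_right h, zero_mul]
  · rintro ⟨A, rfl⟩
    refine ⟨fun n => if n ∈ A then 1 else 0, fun n => ?_, ?_⟩
    · by_cases h : n ∈ A
      · right; simp [h]
      · left; simp [h]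
    · have h1 : (fun n => (if n ∈ A then (1 : ℝ) else 0) * x n) = A.indicator x := by
        funext n
        by_cases h : n ∈ A
        · simp [h]
        · simp [h]
      rw [h1]
      exact (hx.indicator A).hasSum

lemma E_eq' : achievementSet seq = Pool.Agent.H51.Cantorval.E := by
  rw [seq_eq, ach_eq Pool.Agent.H51.Cantorval.x_summable, Pool.Agent.H51.Cantorval.E_eq]

/-- a component of a compact set with left endpoint `a` -/
lemma comp_interval {E : Set ℝ} (hE : IsCompact E) {a c : ℝ} (hac : a < c) (hsub : Icc a c ⊆ E)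
    (hno : ∀ y, y < a → ¬ Icc y a ⊆ E) : ∃ d, IsEInterval E a d := by
  have haE : a ∈ E := hsub ⟨le_refl _, hac.le⟩
  set C := connectedComponentIn E a with hC
  have hpc : IsPreconnected C := isPreconnected_connectedComponentIn
  have hord : C.OrdConnected := hpc.ordConnected
  have hsubE : C ⊆ E := connectedComponentIn_subset E a
  have haC : a ∈ C := mem_connectedComponentIn haE
  have hclosed : IsClosed C := by
    apply isClosed_of_closure_subset
    exact hpc.closure.subset_connectedComponentIn (x := a) (F := E)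
      (subset_closure haC) (closure_minimal hsubE hE.isClosed)
  have hcompact : IsCompact C := hE.of_isClosed_subset hclosed hsubE
  have hsup : sSup C ∈ C := hcompact.sSup_mem ⟨a, haC⟩
  have hcC : c ∈ C := isPreconnected_Icc.subset_connectedComponentIn (x := a) (F := E)
    ⟨le_refl _, hac.le⟩ hsub ⟨hac.le, le_refl _⟩
  have hcs : c ≤ sSup C := le_csSup hcompact.bddAbove hcC
  refine ⟨sSup C, lt_of_lt_of_le hac hcs, haE, ?_⟩
  apply subset_antisymm
  · intro y hy
    refine ⟨?_, le_csSup hcompact.bddAbove hy⟩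
    by_contra hlt
    push Not at hlt
    exact hno y hlt ((hord.out hy haC).trans hsubE)
  · exact hord.out haC hsup

lemma mem_comp {E : Set ℝ} {a c : ℝ} (h : IsEInterval E a c) {y : ℝ} (hy : y ∈ Icc a c) :
    connectedComponentIn E y = Icc a c := by
  rw [← h.2.2]
  rw [← h.2.2] at hy
  exact (connectedComponentIn_eq hy).symm

lemma not_onePoint {E : Set ℝ} {a c : ℝ} (h : IsEInterval E a c) {y : ℝ} (hy : y ∈ Icc a c) :
    y ∉ onePoint E := by
  rintro ⟨_, h2⟩
  rw [mem_comp h hy] at h2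
  have h3 : a ∈ ({y} : Set ℝ) := h2 ▸ (⟨le_refl _, h.1.le⟩ : a ∈ Icc a c)
  have h4 : c ∈ ({y} : Set ℝ) := h2 ▸ (⟨h.1.le, le_refl _⟩ : c ∈ Icc a c)
  have := h.1
  rw [mem_singleton_iff] at h3 h4
  linarith

lemma accPt_of_closure {S : Set ℝ} {a : ℝ} (h : a ∈ closure S) (ha : a ∉ S) :
    AccPt a (𝓟 S) := by
  rw [accPt_iff_clusterPt, inf_principal, ← mem_closure_iff_clusterPt]
  have : {a}ᶜ ∩ S = S := by
    ext y
    simp only [mem_inter_iff, mem_compl_iff, mem_singleton_iff, and_iff_right_iff_imp]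
    rintro hy rfl
    exact ha hy
  rw [this]
  exact h

lemma isCantorval : IsCantorval Pool.Agent.H51.Cantorval.E := by
  obtain ⟨h1, h2, h3, h4⟩ := Pool.Agent.H51.Cantorval.cantorval
  refine ⟨h1, h2, h3.symm, ?_⟩
  intro a c hac
  have hnt : (connectedComponentIn Pool.Agent.H51.Cantorval.E a).Nontrivial := by
    rw [hac.2.2]
    exact ⟨a, ⟨le_refl _, hac.1.le⟩, c, ⟨hac.1.le, le_refl _⟩, hac.1.ne⟩
  have h5 := h4 a hac.2.1 hnt
  rw [hac.2.2, csInf_Icc hac.1.le, csSup_Icc hac.1.le] at h5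
  exact ⟨accPt_of_closure h5.1
      (not_onePoint hac ⟨le_refl _, hac.1.le⟩),
    accPt_of_closure h5.2
      (not_onePoint hac ⟨hac.1.le, le_refl _⟩)⟩

/-- For `x = (1/3, 3/4, 2/4, 3/16, 2/16, …)` the achievement set `E` is a Cantorval, `2/3` and
`1/6` are left endpoints of `E`-intervals, and for every `ε > 0` the set `E ∩ [2/3 - ε, 2/3]` is
not a translate of `E ∩ [1/6 - ε, 1/6]`. -/
theorem result : (∀ n, 0 < seq n) ∧ Summable seq ∧ IsCantorval (achievementSet seq) ∧
    (∃ c, IsEInterval (achievementSet seq) (2 / 3) c) ∧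
    (∃ d, IsEInterval (achievementSet seq) (1 / 6) d) ∧
    ∀ ε : ℝ, 0 < ε → ∀ t : ℝ, achievementSet seq ∩ Icc (2 / 3 - ε) (2 / 3) ≠
      (fun z => z + t) '' (achievementSet seq ∩ Icc (1 / 6 - ε) (1 / 6)) := by
  rw [E_eq']
  refine ⟨?_, ?_, isCantorval, ?_, ?_, ?_⟩
  · rw [seq_eq]; exact Pool.Agent.H51.Cantorval.x_pos
  · rw [seq_eq]; exact Pool.Agent.H51.Cantorval.x_summable
  · exact comp_interval Pool.Agent.H51.Cantorval.E_compact (by norm_num)
      Pool.Agent.H51.Cantorval.a_right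
      (Pool.Agent.H51.Cantorval.no_left (by norm_num) Pool.Agent.H51.Cantorval.a_gap)
  · exact comp_interval Pool.Agent.H51.Cantorval.E_compact (by norm_num)
      Pool.Agent.H51.Cantorval.b_right
      (Pool.Agent.H51.Cantorval.no_left (by norm_num) Pool.Agent.H51.Cantorval.b_gap)
  · intro ε hε t ht
    have haE : (2/3 : ℝ) ∈ Pool.Agent.H51.Cantorval.E :=
      Pool.Agent.H51.Cantorval.a_right ⟨le_refl _, by norm_num⟩
    have hbE : (1/6 : ℝ) ∈ Pool.Agent.H51.Cantorval.E :=
      Pool.Agent.H51.Cantorval.b_right ⟨le_refl _, by norm_num⟩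
    have h1 : 2/3 - 1/6 ≤ t := by
      have : (2/3 : ℝ) ∈ Pool.Agent.H51.Cantorval.E ∩ Icc (2/3 - ε) (2/3) :=
        ⟨haE, by linarith, le_refl _⟩
      rw [ht] at this
      obtain ⟨w, hw, hwt⟩ := this
      have := hw.2.2
      simp only at hwt
      linarith
    have h2 : 1/6 + t ≤ 2/3 := by
      have : 1/6 + t ∈ (fun z => z + t) '' (Pool.Agent.H51.Cantorval.E ∩ Icc (1/6 - ε) (1/6)) :=
        ⟨1/6, ⟨hbE, by linarith, le_refl _⟩, rfl⟩
      rw [← ht] at this
      exact this.2.2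
    have ht' : t = 1/2 := by linarith
    obtain ⟨n, hn⟩ := exists_pow_lt_of_lt_one hε (show (1/16 : ℝ) < 1 by norm_num)
    have hp : (0:ℝ) < (1/16)^n := by positivity
    have : 2/3 - (5/96) * (1/16 : ℝ)^n ∈ Pool.Agent.H51.Cantorval.E ∩ Icc (2/3 - ε) (2/3) :=
      ⟨Pool.Agent.H51.Cantorval.a_pts n, by linarith, by linarith⟩
    rw [ht] at this
    obtain ⟨w, hw, hwt⟩ := this
    simp only at hwt
    apply Pool.Agent.H51.Cantorval.b_gap n
    rw [show 1/6 - (5/96) * (1/16 : ℝ)^n = w by rw [ht'] at hwt; linarith]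
    exact hw.1

end Pool.Agent.Results.MP_171342_an.CantorvalLeftEnds
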